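import Pool.Agent.W745.RW.Stm

/-!
Project RW, part AL: the algebra.
-/

set_option autoImplicit false
open Filter Topology

namespace Pool.Agent.W165.RW

open Pool.Agent.W745.RW

/-- Scalar version of the relation `(S₁ + S₃)(S₂ + S₃) D = 0`, at the origin. -/
theorem base0 (E : ℤ → ℤ → ℤ → ℤ → ℂ)
    (R1 : ∀ x y z w, E (x+1) y z w + E x (y+1) z w + E x y (z+1) w + E x y z (w+1) = 0)
    (R2 : ∀ x y z w, E (x-1) y z w + E x (y-1) z w + E x y (z-1) w + E x y z (w-1) = 0)
    (R3 : ∀ x y z w, (E x (y+1) z (w-1) - E x (y+1) (z-1) w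
      - E (x+1) y z (w-1) + E (x+1) y (z-1) w)
      - (E x (y-1) z (w+1) - E x (y-1) (z+1) w
      - E (x-1) y z (w+1) + E (x-1) y (z+1) w) = 0) :
    E 1 1 0 0 + E 1 0 1 0 + E 0 1 1 0 + E 0 0 2 0 = 0 := by
  have h1 := R1 (-1) 1 1 0
  have h2 := R1 0 0 1 0
  have h3 := R1 0 1 1 (-1)
  have h4 := R2 0 1 2 0
  have h5 := R2 0 2 1 0
  have h6 := R2 1 1 1 0
  have h7 := R3 0 1 1 0
  norm_num only at h1 h2 h3 h4 h5 h6 h7
  linear_combination (-1/4 : ℂ) * h1 + (1/4 : ℂ) * h2 + (-1/2 : ℂ) * h3 + (1/2 : ℂ) * h4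
    + (1/4 : ℂ) * h5 + (3/4 : ℂ) * h6 + (1/4 : ℂ) * h7

theorem base (D : ℤ → ℤ → ℤ → ℤ → ℂ)
    (R1 : ∀ a b c d, D (a+1) b c d + D a (b+1) c d + D a b (c+1) d + D a b c (d+1) = 0)
    (R2 : ∀ a b c d, D (a-1) b c d + D a (b-1) c d + D a b (c-1) d + D a b c (d-1) = 0)
    (R3 : ∀ a b c d, (D a (b+1) c (d-1) - D a (b+1) (c-1) d
      - D (a+1) b c (d-1) + D (a+1) b (c-1) d)
      - (D a (b-1) c (d+1) - D a (b-1) (c+1) d
      - D (a-1) b c (d+1) + D (a-1) b (c+1) d) = 0) (a b c d : ℤ) :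
    D (a+1) (b+1) c d + D (a+1) b (c+1) d + D a (b+1) (c+1) d + D a b (c+2) d = 0 := by
  have h := base0 (fun x y z w => D (a+x) (b+y) (c+z) (d+w))
    (fun x y z w => by simpa only [add_assoc] using R1 (a+x) (b+y) (c+z) (d+w))
    (fun x y z w => by simpa only [add_sub_assoc] using R2 (a+x) (b+y) (c+z) (d+w))
    (fun x y z w => by
      simpa only [add_assoc, add_sub_assoc] using R3 (a+x) (b+y) (c+z) (d+w))
  simpa using h

theorem scal (D : ℤ → ℤ → ℤ → ℤ → ℂ)
    (s1 : ∀ a b c d, D a b c d = D b a c d) (s2 : ∀ a b c d, D a b c d = D a c b d)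
    (s3 : ∀ a b c d, D a b c d = D a b d c)
    (R1 : ∀ a b c d, D (a+1) b c d + D a (b+1) c d + D a b (c+1) d + D a b c (d+1) = 0)
    (R2 : ∀ a b c d, D (a-1) b c d + D a (b-1) c d + D a b (c-1) d + D a b c (d-1) = 0)
    (R3 : ∀ a b c d, (D a (b+1) c (d-1) - D a (b+1) (c-1) d
      - D (a+1) b c (d-1) + D (a+1) b (c-1) d)
      - (D a (b-1) c (d+1) - D a (b-1) (c+1) d
      - D (a-1) b c (d+1) + D (a-1) b (c+1) d) = 0) (j k : ℤ) :
    D (2*j) (-(2*j)) (2*k) (-(2*k)) = D 0 0 0 0 := by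
  have hb := base D R1 R2 R3
  -- `S₁² D = S₂² D`
  have key : ∀ a b c d, D (a+2) b c d = D a (b+2) c d := by
    intro a b c d
    -- (S₂+S₁)(S₃+S₁) D = 0 and (S₁+S₂)(S₃+S₂) D = 0
    have h1 := hb b c a d
    have h2 := hb a c b d
    -- h1 : D (b+1) (c+1) a d + D (b+1) c (a+1) d + D b (c+1) (a+1) d + D b c (a+2) d = 0
    -- h2 : D (a+1) (c+1) b d + D (a+1) c (b+1) d + D a (c+1) (b+1) d + D a c (b+2) d = 0
    have e1 : D (b+1) (c+1) a d = D a (c+1) (b+1) d := by
      rw [s1 (b+1) (c+1) a d, s2 (c+1) (b+1) a d, s1 (c+1) a (b+1) d]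
    have e2 : D (b+1) c (a+1) d = D (a+1) c (b+1) d := by
      rw [s1 (b+1) c (a+1) d, s2 c (b+1) (a+1) d, s1 c (a+1) (b+1) d]
    have e3 : D b (c+1) (a+1) d = D (a+1) (c+1) b d := by
      rw [s1 b (c+1) (a+1) d, s2 (c+1) b (a+1) d, s1 (c+1) (a+1) b d]
    have e4 : D b c (a+2) d = D (a+2) b c d := by
      rw [s2 b c (a+2) d, s1 b (a+2) c d]
    have e5 : D a c (b+2) d = D a (b+2) c d := s2 a c (b+2) d
    rw [e1, e2, e3, e4] at h1
    rw [e5] at h2
    linear_combination h1 - h2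
  -- iterate
  have it : ∀ (m : ℕ) (a b c d : ℤ), D (a + 2 * m) b c d = D a (b + 2 * m) c d := by
    intro m
    induction m with
    | zero => intro a b c d; simp
    | succ m ih =>
      intro a b c d
      have h1 := ih (a+2) b c d
      have h2 := key a (b + 2 * m) c d
      have x1 : a + 2 + 2 * (m : ℤ) = a + 2 * ((m + 1 : ℕ) : ℤ) := by push_cast; ring
      have x2 : b + 2 * (m : ℤ) + 2 = b + 2 * ((m + 1 : ℕ) : ℤ) := by push_cast; ring
      rw [x1] at h1
      rw [x2] at h2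
      rw [h1, h2]
  have itz : ∀ (m : ℤ) (c d : ℤ), D (2 * m) (-(2 * m)) c d = D 0 0 c d := by
    intro m c d
    rcases Int.eq_nat_or_neg m with ⟨n, rfl | rfl⟩
    · have h := it n 0 (-(2 * (n : ℤ))) c d
      simpa using h
    · have h := it n (-(2 * (n : ℤ))) 0 c d
      have h' : D (2 * -(n : ℤ)) (-(2 * -(n : ℤ))) c d = D (-(2 * (n : ℤ))) (0 + 2 * n) c d := by
        congr 1 <;> ring_nf
      rw [h', ← h]
      simp
  have sw : ∀ a b c d, D a b c d = D c d a b := by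
    intro a b c d
    rw [s2 a b c d, s1 a c b d, s3 c a b d, s2 c a d b]
  rw [itz j, sw 0 0, itz k]

/-- The null sequences. -/
def NN : Submodule ℂ (ℕ → ℂ) where
  carrier := {s | Null s}
  add_mem' := by
    intro a b ha hb
    have h : Tendsto (fun n => a n + b n) atTop (𝓝 (0 + 0)) := Tendsto.add ha hb
    rw [add_zero] at h
    exact h
  zero_mem' := by
    show Tendsto (fun _ : ℕ => (0 : ℂ)) atTop (𝓝 0)
    exact tendsto_const_nhds
  smul_mem' := by
    intro c a ha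
    have h : Tendsto (fun n => c * a n) atTop (𝓝 (c * 0)) := Tendsto.const_mul c ha
    rw [mul_zero] at h
    exact h

theorem al : SAl := by
  intro D s1 s2 s3 R1 R2 R3 j k
  have hmem : D (2*j) (-(2*j)) (2*k) (-(2*k)) - D 0 0 0 0 ∈ NN := by
    rw [← Submodule.Quotient.mk_eq_zero NN, ← Module.forall_dual_apply_eq_zero_iff ℂ]
    intro φ
    have hφ : ∀ s : ℕ → ℂ, Null s → φ (Submodule.Quotient.mk (p := NN) s) = 0 := by
      intro s hs
      rw [(Submodule.Quotient.mk_eq_zero NN).2 (show s ∈ NN from hs), map_zero]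
    have h := scal (fun a b c d => φ (Submodule.Quotient.mk (p := NN) (D a b c d)))
      (fun a b c d => by simp only [s1 a b c d]) (fun a b c d => by simp only [s2 a b c d])
      (fun a b c d => by simp only [s3 a b c d])
      (fun a b c d => by
        rw [← map_add, ← map_add, ← map_add, ← Submodule.Quotient.mk_add,
          ← Submodule.Quotient.mk_add, ← Submodule.Quotient.mk_add]
        exact hφ _ (R1 a b c d))
      (fun a b c d => by
        rw [← map_add, ← map_add, ← map_add, ← Submodule.Quotient.mk_add,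
          ← Submodule.Quotient.mk_add, ← Submodule.Quotient.mk_add]
        exact hφ _ (R2 a b c d))
      (fun a b c d => by
        simp only [← map_add, ← map_sub, ← Submodule.Quotient.mk_add,
          ← Submodule.Quotient.mk_sub]
        exact hφ _ (R3 a b c d)) j k
    rw [Submodule.Quotient.mk_sub, map_sub]
    exact sub_eq_zero.2 h
  exact hmem

end Pool.Agent.W165.RW
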