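import Pool.Agent.W165.RW.Al

/-!
Project RW, part AL: the relation `S₁² D = S₂² D` as a separate statement.
-/

set_option autoImplicit false
open Filter Topology

namespace Pool.Agent.W165.RW

open Pool.Agent.W745.RW

theorem scalKey (D : ℤ → ℤ → ℤ → ℤ → ℂ)
    (s1 : ∀ a b c d, D a b c d = D b a c d) (s2 : ∀ a b c d, D a b c d = D a c b d)
    (R1 : ∀ a b c d, D (a+1) b c d + D a (b+1) c d + D a b (c+1) d + D a b c (d+1) = 0)
    (R2 : ∀ a b c d, D (a-1) b c d + D a (b-1) c d + D a b (c-1) d + D a b c (d-1) = 0)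
    (R3 : ∀ a b c d, (D a (b+1) c (d-1) - D a (b+1) (c-1) d
      - D (a+1) b c (d-1) + D (a+1) b (c-1) d)
      - (D a (b-1) c (d+1) - D a (b-1) (c+1) d
      - D (a-1) b c (d+1) + D (a-1) b (c+1) d) = 0) :
    ∀ a b c d, D (a+2) b c d = D a (b+2) c d := by
  have hb := base D R1 R2 R3
  intro a b c d
  have h1 := hb b c a d
  have h2 := hb a c b d
  have e1 : D (b+1) (c+1) a d = D a (c+1) (b+1) d := by
    rw [s1 (b+1) (c+1) a d, s2 (c+1) (b+1) a d, s1 (c+1) a (b+1) d]
  have e2 : D (b+1) c (a+1) d = D (a+1) c (b+1) d := by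
    rw [s1 (b+1) c (a+1) d, s2 c (b+1) (a+1) d, s1 c (a+1) (b+1) d]
  have e3 : D b (c+1) (a+1) d = D (a+1) (c+1) b d := by
    rw [s1 b (c+1) (a+1) d, s2 (c+1) b (a+1) d, s1 (c+1) (a+1) b d]
  have e4 : D b c (a+2) d = D (a+2) b c d := by
    rw [s2 b c (a+2) d, s1 b (a+2) c d]
  have e5 : D a c (b+2) d = D a (b+2) c d := s2 a c (b+2) d
  rw [e1, e2, e3, e4] at h1
  rw [e5] at h2
  linear_combination h1 - h2

theorem alKey : ∀ D : ℤ → ℤ → ℤ → ℤ → ℕ → ℂ,
    (∀ a b c d, D a b c d = D b a c d) → (∀ a b c d, D a b c d = D a c b d) →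
    (∀ a b c d, D a b c d = D a b d c) →
    (∀ a b c d, Null (fun n => D (a+1) b c d n + D a (b+1) c d n + D a b (c+1) d n
      + D a b c (d+1) n)) →
    (∀ a b c d, Null (fun n => D (a-1) b c d n + D a (b-1) c d n + D a b (c-1) d n
      + D a b c (d-1) n)) →
    (∀ a b c d, Null (fun n => (D a (b+1) c (d-1) n - D a (b+1) (c-1) d n
        - D (a+1) b c (d-1) n + D (a+1) b (c-1) d n)
      - (D a (b-1) c (d+1) n - D a (b-1) (c+1) d n
        - D (a-1) b c (d+1) n + D (a-1) b (c+1) d n))) →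
    ∀ a b c d : ℤ, Null (fun n => D (a+2) b c d n - D a (b+2) c d n) := by
  intro D s1 s2 s3 R1 R2 R3 a b c d
  have hmem : D (a+2) b c d - D a (b+2) c d ∈ NN := by
    rw [← Submodule.Quotient.mk_eq_zero NN, ← Module.forall_dual_apply_eq_zero_iff ℂ]
    intro φ
    have hφ : ∀ s : ℕ → ℂ, Null s → φ (Submodule.Quotient.mk (p := NN) s) = 0 := by
      intro s hs
      rw [(Submodule.Quotient.mk_eq_zero NN).2 (show s ∈ NN from hs), map_zero]
    have h := scalKey (fun a b c d => φ (Submodule.Quotient.mk (p := NN) (D a b c d)))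
      (fun a b c d => by simp only [s1 a b c d]) (fun a b c d => by simp only [s2 a b c d])
      (fun a b c d => by
        rw [← map_add, ← map_add, ← map_add, ← Submodule.Quotient.mk_add,
          ← Submodule.Quotient.mk_add, ← Submodule.Quotient.mk_add]
        exact hφ _ (R1 a b c d))
      (fun a b c d => by
        rw [← map_add, ← map_add, ← map_add, ← Submodule.Quotient.mk_add,
          ← Submodule.Quotient.mk_add, ← Submodule.Quotient.mk_add]
        exact hφ _ (R2 a b c d))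
      (fun a b c d => by
        simp only [← map_add, ← map_sub, ← Submodule.Quotient.mk_add,
          ← Submodule.Quotient.mk_sub]
        exact hφ _ (R3 a b c d)) a b c d
    rw [Submodule.Quotient.mk_sub, map_sub]
    exact sub_eq_zero.2 h
  exact hmem

end Pool.Agent.W165.RW
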